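import Mathlib

set_option autoImplicit false

namespace Pool.Agent.H.MP_83fe1d_co

open Set
open scoped Classical

abbrev P := EuclideanSpace ℝ (Fin 2)

def Conn (E : Finset (P × P)) (x y : P) : Prop :=
  Relation.ReflTransGen (fun a b => (a, b) ∈ E ∨ (b, a) ∈ E) x y

def Net (V : Set P) (L : ℝ) : Prop :=
  ∃ E : Finset (P × P), (∀ x ∈ V, ∀ y ∈ V, Conn E x y) ∧ ∑ e ∈ E, dist e.1 e.2 ≤ L

lemma Conn.mono {E E' : Finset (P × P)} (h : E ⊆ E') {x y : P} (hc : Conn E x y) : Conn E' x y := by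
  unfold Conn at *
  induction hc with
  | refl => exact Relation.ReflTransGen.refl
  | tail _ hab ih => exact ih.tail (hab.imp (fun g => h g) (fun g => h g))

lemma Net.mono {V V' : Set P} {L L' : ℝ} (h : Net V L) (h1 : V' ⊆ V) (h2 : L ≤ L') : Net V' L' := by
  obtain ⟨E, g1, g2⟩ := h
  exact ⟨E, fun x hx y hy => g1 x (h1 hx) y (h1 hy), g2.trans h2⟩

lemma Net.single (p : P) : Net {p} 0 :=
  ⟨∅, fun x hx y hy => by
    rw [mem_singleton_iff.1 hx, mem_singleton_iff.1 hy]; exact Relation.ReflTransGen.refl, by simp⟩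

lemma Net.edge (p q : P) : Net {p, q} (dist p q) := by
  refine ⟨{(p, q)}, ?_, by simp⟩
  rintro x (rfl | rfl) y (rfl | rfl)
  · exact Relation.ReflTransGen.refl
  · exact Relation.ReflTransGen.single (Or.inl (by simp))
  · exact Relation.ReflTransGen.single (Or.inr (by simp))
  · exact Relation.ReflTransGen.refl

lemma Net.union {V V' : Set P} {L L' : ℝ} (h : Net V L) (h' : Net V' L') {z : P} (hz : z ∈ V)
    (hz' : z ∈ V') : Net (V ∪ V') (L + L') := by
  obtain ⟨E, g1, g2⟩ := h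
  obtain ⟨E', g3, g4⟩ := h'
  refine ⟨E ∪ E', ?_, ?_⟩
  · have a1 : ∀ x ∈ V ∪ V', Conn (E ∪ E') x z ∧ Conn (E ∪ E') z x := by
      rintro x (hx | hx)
      · exact ⟨(g1 x hx z hz).mono Finset.subset_union_left,
          (g1 z hz x hx).mono Finset.subset_union_left⟩
      · exact ⟨(g3 x hx z hz').mono Finset.subset_union_right,
          (g3 z hz' x hx).mono Finset.subset_union_right⟩
    intro x hx y hy
    exact Relation.ReflTransGen.trans (a1 x hx).1 (a1 y hy).2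
  · have := Finset.sum_union_inter (s₁ := E) (s₂ := E') (f := fun e : P × P => dist e.1 e.2)
    have h2 : 0 ≤ ∑ e ∈ E ∩ E', dist e.1 e.2 := Finset.sum_nonneg fun _ _ => dist_nonneg
    linarith

lemma Net.attach {V : Set P} {L : ℝ} (h : Net V L) {q : P} (hq : q ∈ V) (p : P) :
    Net (insert p V) (L + dist q p) := by
  refine (h.union (Net.edge q p) hq (by simp)).mono ?_ le_rfl
  rintro x (rfl | hx)
  · exact Or.inr (by simp)
  · exact Or.inl hx

lemma Net.smul {V : Set P} {L : ℝ} (h : Net V L) {t : ℝ} (ht : 0 ≤ t) :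
    Net ((fun p => t • p) '' V) (t * L) := by
  obtain ⟨E, g1, g2⟩ := h
  refine ⟨E.image (fun e => (t • e.1, t • e.2)), ?_, ?_⟩
  · rintro _ ⟨x, hx, rfl⟩ _ ⟨y, hy, rfl⟩
    have hc := g1 x hx y hy
    clear hy
    unfold Conn at *
    induction hc with
    | refl => exact Relation.ReflTransGen.refl
    | tail _ hab ih =>
      exact ih.tail (hab.imp (fun g => Finset.mem_image.2 ⟨_, g, rfl⟩)
        (fun g => Finset.mem_image.2 ⟨_, g, rfl⟩))
  · refine (Finset.sum_image_le_of_nonneg (fun _ _ => dist_nonneg)).trans ?_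
    refine le_trans (le_of_eq ?_) (mul_le_mul_of_nonneg_left g2 ht)
    rw [Finset.mul_sum]
    refine Finset.sum_congr rfl fun e _ => ?_
    rw [dist_smul₀, Real.norm_eq_abs, abs_of_nonneg ht]

noncomputable def pt (x y : ℝ) : P := !₂[x, y]

@[simp] lemma pt0 (x y : ℝ) : pt x y 0 = x := rfl
@[simp] lemma pt1 (x y : ℝ) : pt x y 1 = y := rfl

lemma pt_eta (p : P) : pt (p 0) (p 1) = p := by
  ext i; fin_cases i <;> rfl

lemma dist_eq (p q : P) : dist p q = √((p 0 - q 0) ^ 2 + (p 1 - q 1) ^ 2) := by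
  rw [EuclideanSpace.dist_eq, Fin.sum_univ_two, Real.dist_eq, Real.dist_eq, sq_abs, sq_abs]

lemma dist_le {p q : P} {r : ℝ} (hr : 0 ≤ r) (h : (p 0 - q 0) ^ 2 + (p 1 - q 1) ^ 2 ≤ r ^ 2) :
    dist p q ≤ r := by
  rw [dist_eq]; exact Real.sqrt_le_iff.2 ⟨hr, h⟩

lemma line (y a : ℝ) (T : Finset ℝ) : ∀ b, a ≤ b → (∀ t ∈ T, a ≤ t ∧ t ≤ b) →
    Net (insert (pt b y) (insert (pt a y) ((fun t => pt t y) '' ↑T))) (b - a) := by
  induction T using Finset.induction_on_max with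
  | empty =>
    intro b hab _
    refine (Net.edge (pt b y) (pt a y)).mono (by simp) (dist_le (by linarith) (by simp))
  | insert t T hlt ih =>
    intro b hab h
    have h1 := h t (Finset.mem_insert_self _ _)
    have h2 := ih t h1.1 (fun s hs => ⟨(h s (Finset.mem_insert_of_mem hs)).1, (hlt s hs).le⟩)
    have h3 := h2.attach (q := pt t y) (by simp) (pt b y)
    refine h3.mono ?_ ?_
    · rw [Finset.coe_insert, image_insert_eq]
      rintro x (rfl | rfl | rfl | hx)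
      · simp
      · simp
      · simp
      · exact Or.inr (Or.inr (Or.inr hx))
    · have : dist (pt t y) (pt b y) ≤ b - t := dist_le (by linarith [h1.2]) (by simp; nlinarith)
      linarith

lemma chain (X : Finset P) (idx : P → ℕ) (f : P → ℝ) (pin : ℕ → P) (c : ℝ)
    (h : ∀ i, Net ({pin i, pin (i + 1)} ∪ ↑(X.filter (fun p => idx p = i)))
      (c + ∑ p ∈ X.filter (fun p => idx p = i), f p)) (I : ℕ) :
    Net ({pin 0, pin I} ∪ ↑(X.filter (fun p => idx p < I)))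
      (I * c + ∑ p ∈ X.filter (fun p => idx p < I), f p) := by
  induction I with
  | zero => exact (Net.single (pin 0)).mono (by simp) (by simp)
  | succ I ih =>
    refine (ih.union (h I) (z := pin I) (by simp) (by simp)).mono ?_ (le_of_eq ?_)
    · rintro x ((rfl | rfl) | hx)
      · simp
      · simp
      · rw [Finset.mem_coe, Finset.mem_filter] at hx
        rcases Nat.lt_succ_iff_lt_or_eq.1 hx.2 with g | g
        · exact Or.inl (Or.inr (by simp [hx.1, g]))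
        · exact Or.inr (Or.inr (by simp [hx.1, g]))
    · have : X.filter (fun p => idx p < I + 1) =
          X.filter (fun p => idx p < I) ∪ X.filter (fun p => idx p = I) := by
        ext p; simp only [Finset.mem_filter, Finset.mem_union]
        constructor
        · rintro ⟨g1, g2⟩
          rcases Nat.lt_succ_iff_lt_or_eq.1 g2 with g | g
          · exact Or.inl ⟨g1, g⟩
          · exact Or.inr ⟨g1, g⟩
        · rintro (⟨g1, g2⟩ | ⟨g1, g2⟩) <;> exact ⟨g1, by omega⟩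
      rw [this, Finset.sum_union]
      · push_cast; ring
      · rw [Finset.disjoint_left]
        intro p g1 g2
        have := (Finset.mem_filter.1 g1).2
        have := (Finset.mem_filter.1 g2).2
        omega

lemma conv {t u u' v l1 l2 : ℝ} (h0 : 0 ≤ t) (h1 : t ≤ 1) (hl1 : 0 ≤ l1) (hl2 : 0 ≤ l2)
    (g1 : u ^ 2 + v ^ 2 ≤ l1 ^ 2) (g2 : u' ^ 2 + v ^ 2 ≤ l2 ^ 2) :
    (t * u + (1 - t) * u') ^ 2 + v ^ 2 ≤ (t * l1 + (1 - t) * l2) ^ 2 := by
  have k1 : (u * u' + v ^ 2) ^ 2 ≤ (l1 * l2) ^ 2 := by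
    have : (u * u' + v ^ 2) ^ 2 ≤ (u ^ 2 + v ^ 2) * (u' ^ 2 + v ^ 2) := by
      nlinarith [sq_nonneg (u * v - u' * v)]
    refine this.trans ?_
    rw [mul_pow]
    exact mul_le_mul g1 g2 (by positivity) (by positivity)
  have k2 : u * u' + v ^ 2 ≤ l1 * l2 := (abs_le_of_sq_le_sq' k1 (mul_nonneg hl1 hl2)).2
  have k3 : 0 ≤ 1 - t := by linarith
  nlinarith [mul_le_mul_of_nonneg_left g1 (sq_nonneg t),
    mul_le_mul_of_nonneg_left g2 (sq_nonneg (1 - t)),
    mul_le_mul_of_nonneg_left k2 (mul_nonneg h0 k3)]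

lemma tri {W U V D l1 l2 R a : ℝ} (hU : 0 ≤ U) (hl1 : 0 ≤ l1) (hl2 : 0 ≤ l2)
    (g1 : U ^ 2 + V ^ 2 ≤ l1 ^ 2) (g2 : (W - U) ^ 2 + V ^ 2 ≤ l2 ^ 2)
    (g3 : U ^ 2 + (D - V) ^ 2 ≤ R ^ 2) (ha : 0 ≤ a) (haW : a ≤ W) :
    ∃ x m1 m2 : ℝ, 0 ≤ m1 ∧ 0 ≤ m2 ∧ m1 + m2 ≤ l1 + l2 ∧ x ^ 2 + V ^ 2 ≤ m1 ^ 2 ∧
      (W - x) ^ 2 + V ^ 2 ≤ m2 ^ 2 ∧ (x - a) ^ 2 + (D - V) ^ 2 ≤ R ^ 2 := by
  rcases le_or_gt a U with h1 | h1
  · exact ⟨U, l1, l2, hl1, hl2, le_rfl, g1, g2, by nlinarith⟩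
  rcases le_or_gt (W - U) a with h2 | h2
  · exact ⟨W - U, l2, l1, hl2, hl1, by linarith, g2, by simpa using g1, by nlinarith⟩
  have h3 : 0 < W - 2 * U := by linarith
  set t := (W - U - a) / (W - 2 * U) with ht
  have t0 : 0 ≤ t := div_nonneg (by linarith) h3.le
  have t1 : t ≤ 1 := (div_le_one h3).2 (by linarith)
  have e0 : t * (W - 2 * U) = W - U - a := div_mul_cancel₀ _ h3.ne'
  have e1 : t * U + (1 - t) * (W - U) = a := by linarith
  have k1 := conv t0 t1 hl1 hl2 g1 g2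
  have k2 := conv t0 t1 hl2 hl1 g2 g1
  have e2 : t * (W - U) + (1 - t) * U = W - a := by linarith
  rw [e1] at k1
  rw [e2] at k2
  have k3 : 0 ≤ 1 - t := by linarith
  exact ⟨a, _, _, by positivity, by positivity, by linarith, k1, k2, by nlinarith⟩

lemma star {u v d l1 l2 r : ℝ} (hu : 0 ≤ u) (hd : 0 ≤ d) (hl1 : 0 ≤ l1) (hl2 : 0 ≤ l2)
    (hr : 0 ≤ r) (g1 : u ^ 2 + v ^ 2 ≤ l1 ^ 2) (g2 : (1 / 2 - u) ^ 2 + v ^ 2 ≤ l2 ^ 2)
    (g3 : u ^ 2 + (d - v) ^ 2 ≤ r ^ 2) {x1 x2 y0 : ℝ} {p : P} (h1 : x1 ≤ p 0) (h2 : p 0 ≤ x2)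
    (h3 : x2 - x1 ≤ 1 / 2) (h4 : d ≤ |p 1 - y0|) :
    Net {pt x1 y0, pt x2 y0, p}
      ((x2 - x1) + |p 1 - y0| - 2 * (x2 - x1) * (1 / 2 + d - l1 - l2 - r)) := by
  set l := 2 * (x2 - x1) with hl
  have l0 : 0 ≤ l := by linarith
  have l1' : l ≤ 1 := by linarith
  obtain ⟨x, m1, m2, k1, k2, k3, k4, k5, k6⟩ := tri (W := x2 - x1) (U := l * u) (V := l * v)
    (D := l * d) (l1 := l * l1) (l2 := l * l2) (R := l * r) (a := p 0 - x1) (by positivity)
    (by positivity) (by positivity)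
    (by nlinarith [mul_le_mul_of_nonneg_left g1 (sq_nonneg l)])
    (by
      have : x2 - x1 - l * u = l * (1 / 2 - u) := by rw [hl]; ring
      rw [this]
      nlinarith [mul_le_mul_of_nonneg_left g2 (sq_nonneg l)])
    (by nlinarith [mul_le_mul_of_nonneg_left g3 (sq_nonneg l)]) (by linarith) (by linarith)
  obtain ⟨σ, hσ, hσ2⟩ : ∃ σ : ℝ, σ ^ 2 = 1 ∧ p 1 - y0 = σ * |p 1 - y0| := by
    rcases le_or_gt 0 (p 1 - y0) with g | g
    · exact ⟨1, by norm_num, by rw [abs_of_nonneg g]; ring⟩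
    · exact ⟨-1, by norm_num, by rw [abs_of_neg g]; ring⟩
  set dp := |p 1 - y0| with hdp
  have hld : l * d ≤ dp := by nlinarith
  have n1 := ((((Net.single (pt (x1 + x) (y0 + σ * (l * v)))).attach (mem_singleton _)
    (pt x1 y0)).attach (q := pt (x1 + x) (y0 + σ * (l * v))) (by simp) (pt x2 y0)).attach
    (q := pt (x1 + x) (y0 + σ * (l * v))) (by simp) (pt (p 0) (y0 + σ * (l * d)))).attach
    (q := pt (p 0) (y0 + σ * (l * d))) (by simp) p
  refine n1.mono ?_ ?_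
  · rintro z (rfl | rfl | rfl) <;> simp
  · have d1 : dist (pt (x1 + x) (y0 + σ * (l * v))) (pt x1 y0) ≤ m1 := dist_le k1 (by
      simp only [pt0, pt1]
      have : (x1 + x - x1) ^ 2 + (y0 + σ * (l * v) - y0) ^ 2 = x ^ 2 + σ ^ 2 * (l * v) ^ 2 := by ring
      rw [this, hσ]; linarith)
    have d2 : dist (pt (x1 + x) (y0 + σ * (l * v))) (pt x2 y0) ≤ m2 := dist_le k2 (by
      simp only [pt0, pt1]
      have : (x1 + x - x2) ^ 2 + (y0 + σ * (l * v) - y0) ^ 2 =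
        (x2 - x1 - x) ^ 2 + σ ^ 2 * (l * v) ^ 2 := by ring
      rw [this, hσ]; linarith)
    have d3 : dist (pt (x1 + x) (y0 + σ * (l * v))) (pt (p 0) (y0 + σ * (l * d))) ≤ l * r :=
      dist_le (by positivity) (by
        simp only [pt0, pt1]
        have : (x1 + x - p 0) ^ 2 + (y0 + σ * (l * v) - (y0 + σ * (l * d))) ^ 2 =
          (x - (p 0 - x1)) ^ 2 + σ ^ 2 * (l * d - l * v) ^ 2 := by ring
        rw [this, hσ]; linarith)
    have d4 : dist (pt (p 0) (y0 + σ * (l * d))) p ≤ dp - l * d := dist_le (by linarith) (by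
      simp only [pt0, pt1]
      have e : p 1 = y0 + σ * dp := by linarith
      have : (p 0 - p 0) ^ 2 + (y0 + σ * (l * d) - (y0 + σ * dp)) ^ 2 =
        σ ^ 2 * (dp - l * d) ^ 2 := by ring
      rw [e, this, hσ]; linarith)
    have : x2 - x1 = l * (1 / 2) := by rw [hl]; ring
    nlinarith

end Pool.Agent.H.MP_83fe1d_co
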