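import Mathlib
import Pool.Agent.H.MP_83fe1d_co.A

set_option autoImplicit false

namespace Pool.Agent.H.MP_83fe1d_co

open Set
open scoped Classical

noncomputable def psi (d : ℝ) : ℝ :=
  if d < 0.2 then -0.0371 else if d < 0.4 then 0.0008 else if d < 0.6 then 0.0117 else 0.01855

lemma psi_le (d : ℝ) : psi d ≤ 0.01855 := by unfold psi; split_ifs <;> norm_num
lemma psi_small {d : ℝ} (h : d < 0.2) : psi d = -0.0371 := by unfold psi; rw [if_pos h]
lemma psi_ge0 (d : ℝ) : -0.0371 ≤ psi d := by unfold psi; split_ifs <;> norm_num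
lemma psi_ge1 {d : ℝ} (h : 0.2 ≤ d) : 0.0008 ≤ psi d := by
  unfold psi; split_ifs <;> linarith
lemma psi_ge2 {d : ℝ} (h : 0.4 ≤ d) : 0.0117 ≤ psi d := by
  unfold psi; split_ifs <;> linarith
lemma psi_ge3 {d : ℝ} (h : 0.6 ≤ d) : 0.01855 ≤ psi d := by
  unfold psi; split_ifs <;> linarith

lemma star' {x1 x2 y0 : ℝ} {p : P} (h1 : x1 ≤ p 0) (h2 : p 0 ≤ x2)
    (h3 : x2 - x1 ≤ 1 / 2) (h4 : 0.2 ≤ |p 1 - y0|) :
    Net {pt x1 y0, pt x2 y0, p}
      ((x2 - x1) + |p 1 - y0| - 2 * (x2 - x1) * (psi |p 1 - y0| + 0.01855)) := by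
  have h0 : 0 ≤ x2 - x1 := by linarith
  unfold psi
  rw [if_neg (not_lt.2 h4)]
  split_ifs with g1 g2
  · refine (star (u := 0.053) (v := 0.067) (d := 0.2) (l1 := 0.08543) (l2 := 0.452) (r := 0.14318)
      (by norm_num) (by norm_num) (by norm_num) (by norm_num) (by norm_num) (by norm_num)
      (by norm_num) (by norm_num) h1 h2 h3 h4).mono subset_rfl (by nlinarith)
  · refine (star (u := 0.091) (v := 0.097) (d := 0.4) (l1 := 0.13301) (l2 := 0.42035)
      (r := 0.31638)
      (by norm_num) (by norm_num) (by norm_num) (by norm_num) (by norm_num) (by norm_num)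
      (by norm_num) (by norm_num) h1 h2 h3 (not_lt.1 g1)).mono subset_rfl (by nlinarith)
  · refine (star (u := 0.118) (v := 0.112) (d := 0.6) (l1 := 0.16269) (l2 := 0.39809)
      (r := 0.50207)
      (by norm_num) (by norm_num) (by norm_num) (by norm_num) (by norm_num) (by norm_num)
      (by norm_num) (by norm_num) h1 h2 h3 (not_lt.1 g2)).mono subset_rfl (by nlinarith)

def Sep (X : Finset P) : Prop := ∀ p ∈ X, ∀ q ∈ X, p ≠ q → 0.9895 ≤ dist p q

lemma vsep {p q : P} {x0 : ℝ} (hp : x0 ≤ p 0 ∧ p 0 ≤ x0 + 1 / 2) (hq : x0 ≤ q 0 ∧ q 0 ≤ x0 + 1 / 2)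
    (h : 0.9895 ≤ dist p q) : 0.853 ≤ |p 1 - q 1| := by
  rw [dist_eq] at h
  have h1 := Real.le_sqrt' (by norm_num : (0 : ℝ) < 0.9895) |>.1 h
  have h2 : (p 0 - q 0) ^ 2 ≤ 1 / 4 := by nlinarith [hp.1, hp.2, hq.1, hq.2]
  refine (abs_le_of_sq_le_sq' ?_ (abs_nonneg _)).2
  rw [sq_abs]
  nlinarith

def child (y0 : ℝ) (X : Finset P) (p : P) : Prop :=
  ∃ q ∈ X, 0.2 ≤ |q 1 - y0| ∧ (y0 ≤ p 1 ↔ y0 ≤ q 1) ∧ |q 1 - y0| < |p 1 - y0|

lemma same_abs {a b y0 : ℝ} (h : y0 ≤ a ↔ y0 ≤ b) : |a - b| = |(|a - y0|) - (|b - y0|)| := by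
  by_cases g : y0 ≤ a
  · rw [abs_of_nonneg (sub_nonneg.2 g), abs_of_nonneg (sub_nonneg.2 (h.1 g))]; congr 1; ring
  · have g2 : ¬ y0 ≤ b := fun k => g (h.2 k)
    rw [abs_of_neg (sub_neg.2 (not_le.1 g)), abs_of_neg (sub_neg.2 (not_le.1 g2)), abs_sub_comm]
    congr 1; ring

lemma base (x0 y0 : ℝ) (V : Set P) (L : ℝ) (hV : Net V L) (X : Finset P)
    (hX : ∀ p ∈ X, x0 ≤ p 0 ∧ p 0 ≤ x0 + 1 / 2) (hf : ∀ p ∈ X, pt (p 0) y0 ∈ V) (hs : Sep X) :
    Net (V ∪ ↑X) (L + ∑ p ∈ X, (|p 1 - y0| - if child y0 X p then 0.05565 else 0)) := by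
  induction X using Finset.induction_on_max_value (fun p : P => |p 1 - y0|) with
  | empty => simpa using hV
  | insert p X hp hmax ih =>
    have ih' := ih (fun q hq => hX q (Finset.mem_insert_of_mem hq))
      (fun q hq => hf q (Finset.mem_insert_of_mem hq))
      (fun a ha b hb => hs a (Finset.mem_insert_of_mem ha) b (Finset.mem_insert_of_mem hb))
    have hsum : ∑ q ∈ X, (|q 1 - y0| - if child y0 (insert p X) q then 0.05565 else 0) =
        ∑ q ∈ X, (|q 1 - y0| - if child y0 X q then 0.05565 else 0) := by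
      refine Finset.sum_congr rfl fun q hq => ?_
      have : child y0 (insert p X) q ↔ child y0 X q := by
        constructor
        · rintro ⟨z, hz, g1, g2, g3⟩
          rcases Finset.mem_insert.1 hz with rfl | hz
          · exact absurd g3 (not_lt.2 (hmax q hq))
          · exact ⟨z, hz, g1, g2, g3⟩
        · rintro ⟨z, hz, g⟩
          exact ⟨z, Finset.mem_insert_of_mem hz, g⟩
      rw [this]
    rw [Finset.sum_insert hp, hsum]
    have hsub : V ∪ ↑(insert p X) ⊆ insert p (V ∪ ↑X) := by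
      rw [Finset.coe_insert]
      rintro z (hz | rfl | hz)
      · exact Or.inr (Or.inl hz)
      · exact Or.inl rfl
      · exact Or.inr (Or.inr hz)
    split_ifs with hc
    · obtain ⟨z, hz, g1, g2, g3⟩ := hc
      have hne : p ≠ z := by rintro rfl; exact lt_irrefl _ g3
      have hz' : z ∈ X := (Finset.mem_insert.1 hz).resolve_left hne.symm
      refine (ih'.attach (q := z) (Or.inr hz') p).mono hsub ?_
      have k1 := hX p (Finset.mem_insert_self _ _)
      have k2 := hX z hz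
      have k3 := vsep k1 k2 (hs p (Finset.mem_insert_self _ _) z hz hne)
      have k4 := same_abs g2
      rw [abs_of_pos (sub_pos.2 g3)] at k4
      have k5 : dist z p ≤ |p 1 - z 1| + 0.14 := by
        refine dist_le (by positivity) ?_
        have h2 : (z 0 - p 0) ^ 2 ≤ 1 / 4 := by nlinarith [k1.1, k1.2, k2.1, k2.2]
        have h3 : (z 1 - p 1) ^ 2 = |p 1 - z 1| ^ 2 := by rw [sq_abs]; ring
        nlinarith
      linarith
    · refine (ih'.attach (q := pt (p 0) y0) (Or.inl (hf p (Finset.mem_insert_self _ _))) p).mono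
        hsub ?_
      have k5 : dist (pt (p 0) y0) p ≤ |p 1 - y0| := by
        refine dist_le (abs_nonneg _) ?_
        simp only [pt0, pt1, sq_abs]
        nlinarith
      linarith

theorem cell (x0 y0 : ℝ) (X : Finset P) (hX : ∀ p ∈ X, x0 ≤ p 0 ∧ p 0 ≤ x0 + 1 / 2)
    (hs : Sep X) : Net ({pt x0 y0, pt (x0 + 1 / 2) y0} ∪ ↑X)
      (1 / 2 + ∑ p ∈ X, (|p 1 - y0| - psi |p 1 - y0|)) := by
  have hNB : (X.filter (fun p => 0.2 ≤ |p 1 - y0| ∧ ¬ child y0 X p)).card ≤ 2 := by
    have := Finset.card_le_card_of_injOn (s := X.filter (fun p => 0.2 ≤ |p 1 - y0| ∧ ¬ child y0 X p))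
      (t := (Finset.univ : Finset Bool)) (fun p : P => decide (y0 ≤ p 1)) (fun _ _ => Finset.mem_coe.2 (Finset.mem_univ _)) (by
        intro p hp q hq hpq
        rw [Finset.mem_coe, Finset.mem_filter] at hp hq
        by_contra hne
        have g2 : y0 ≤ p 1 ↔ y0 ≤ q 1 := by simpa using hpq
        have k3 := vsep (hX p hp.1) (hX q hq.1) (hs p hp.1 q hq.1 hne)
        rw [same_abs g2] at k3
        rcases lt_trichotomy |p 1 - y0| |q 1 - y0| with g | g | g
        · exact hq.2.2 ⟨p, hp.1, hp.2.1, g2.symm, g⟩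
        · rw [g] at k3; norm_num at k3
        · exact hp.2.2 ⟨q, hq.1, hq.2.1, g2, g⟩)
    simpa using this
  by_cases hA : (∃ p ∈ X, child y0 X p) ∨ ∃ p ∈ X, |p 1 - y0| < 0.2 ∧ ¬ child y0 X p
  · have l1 := line y0 x0 (X.image (fun p : P => p 0)) (x0 + 1 / 2) (by linarith) (by
      intro t ht
      obtain ⟨p, hp, rfl⟩ := Finset.mem_image.1 ht
      exact hX p hp)
    have l2 := base x0 y0 _ _ l1 X hX (fun p hp => Or.inr (Or.inr
      ⟨p 0, Finset.mem_coe.2 (Finset.mem_image_of_mem _ hp), rfl⟩)) hs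
    refine l2.mono ?_ ?_
    · rintro z ((rfl | rfl) | hz)
      · exact Or.inl (Or.inr (Or.inl rfl))
      · exact Or.inl (Or.inl rfl)
      · exact Or.inr hz
    · have k1 : ∑ p ∈ X, psi |p 1 - y0| ≤ ∑ p ∈ X, (0.01855 * (if child y0 X p then (1 : ℝ) else 0) +
          0.01855 * (if 0.2 ≤ |p 1 - y0| ∧ ¬ child y0 X p then (1 : ℝ) else 0) -
          0.0371 * (if |p 1 - y0| < 0.2 ∧ ¬ child y0 X p then (1 : ℝ) else 0)) := by
        refine Finset.sum_le_sum fun p _ => ?_
        have := psi_le |p 1 - y0|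
        by_cases g1 : child y0 X p
        · simp only [g1, if_true, not_true, and_false, if_false]; linarith
        · by_cases g2 : |p 1 - y0| < 0.2
          · simp only [g1, g2, not_le.2 g2, if_true, if_false, not_false_iff, and_true]
            rw [psi_small g2]; linarith
          · simp only [g1, g2, not_lt.1 g2, if_true, if_false, not_false_iff, and_true]
            linarith
      have k2 : ∑ p ∈ X, (if child y0 X p then (0.05565 : ℝ) else 0) =
          ∑ p ∈ X, 0.05565 * (if child y0 X p then (1 : ℝ) else 0) := by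
        refine Finset.sum_congr rfl fun p _ => ?_
        split_ifs <;> norm_num
      rw [Finset.sum_sub_distrib, Finset.sum_add_distrib, ← Finset.mul_sum, ← Finset.mul_sum,
        ← Finset.mul_sum, Finset.sum_boole, Finset.sum_boole, Finset.sum_boole] at k1
      rw [← Finset.mul_sum, Finset.sum_boole] at k2
      rw [Finset.sum_sub_distrib, Finset.sum_sub_distrib, k2]
      have k3 : ((X.filter (fun p => 0.2 ≤ |p 1 - y0| ∧ ¬ child y0 X p)).card : ℝ) ≤ 2 := by
        exact_mod_cast hNB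
      have k4 : (0 : ℝ) ≤ (X.filter (fun p => child y0 X p)).card := Nat.cast_nonneg _
      have k5 : (0 : ℝ) ≤ (X.filter (fun p => |p 1 - y0| < 0.2 ∧ ¬ child y0 X p)).card :=
        Nat.cast_nonneg _
      rcases hA with ⟨p, hp, g⟩ | ⟨p, hp, g⟩
      · have : (1 : ℝ) ≤ (X.filter (fun p => child y0 X p)).card := by
          exact_mod_cast Finset.card_pos.2 ⟨p, Finset.mem_filter.2 ⟨hp, g⟩⟩
        linarith
      · have : (1 : ℝ) ≤ (X.filter (fun p => |p 1 - y0| < 0.2 ∧ ¬ child y0 X p)).card := by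
          exact_mod_cast Finset.card_pos.2 ⟨p, Finset.mem_filter.2 ⟨hp, g⟩⟩
        linarith
  · push Not at hA
    have hbig : ∀ p ∈ X, 0.2 ≤ |p 1 - y0| := fun p hp => by
      by_contra g
      exact hA.1 p hp (hA.2 p hp (not_le.1 g))
    rw [Finset.filter_true_of_mem (fun p hp => ⟨hbig p hp, hA.1 p hp⟩)] at hNB
    have two : ∀ p ∈ X, ∀ q ∈ X, p 0 ≤ q 0 → Net ({pt x0 y0, pt (x0 + 1 / 2) y0} ∪ {p, q})
        (1 / 2 + ((|p 1 - y0| - psi |p 1 - y0|) + (|q 1 - y0| - psi |q 1 - y0|))) := by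
      intro p hp q hq hpq
      have k1 := hX p hp
      have k2 := hX q hq
      have n1 := star' (x1 := x0) (x2 := q 0) (y0 := y0) k1.1 hpq (by linarith [k2.2]) (hbig p hp)
      have n2 := star' (x1 := q 0) (x2 := x0 + 1 / 2) (y0 := y0) le_rfl k2.2 (by linarith [k2.1])
        (hbig q hq)
      refine (n1.union n2 (z := pt (q 0) y0) (by simp) (by simp)).mono ?_ ?_
      · rintro z ((rfl | rfl) | rfl | rfl) <;> simp
      · nlinarith [mul_nonneg (sub_nonneg.2 k2.1) (sub_nonneg.2 (psi_le |q 1 - y0|)),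
          mul_nonneg (sub_nonneg.2 k2.2) (sub_nonneg.2 (psi_le |p 1 - y0|))]
    rcases Nat.lt_or_ge X.card 1 with c0 | c0
    · have : X = ∅ := Finset.card_eq_zero.1 (by omega)
      subst this
      refine (Net.edge (pt x0 y0) (pt (x0 + 1 / 2) y0)).mono (by simp) ?_
      simp only [Finset.sum_empty, add_zero]
      exact dist_le (by norm_num) (by simp)
    rcases Nat.lt_or_ge X.card 2 with c1 | c1
    · obtain ⟨p, rfl⟩ := Finset.card_eq_one.1 (show X.card = 1 by omega)
      have k1 := hX p (by simp)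
      refine (star' (x1 := x0) (x2 := x0 + 1 / 2) (y0 := y0) k1.1 k1.2 (by linarith)
        (hbig p (by simp))).mono ?_ ?_
      · rintro z ((rfl | rfl) | hz)
        · simp
        · simp
        · simp at hz; simp [hz]
      · rw [Finset.sum_singleton]; linarith
    · obtain ⟨p, q, hne, rfl⟩ := Finset.card_eq_two.1 (show X.card = 2 by omega)
      rw [Finset.sum_pair hne, Finset.coe_pair]
      rcases le_total (p 0) (q 0) with g | g
      · exact two p (by simp) q (by simp) g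
      · have := two q (by simp) p (by simp) g
        rw [pair_comm q p] at this
        exact this.mono subset_rfl (by linarith)

end Pool.Agent.H.MP_83fe1d_co
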