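import Mathlib
import Pool.Agent.H.MP_83fe1d_co.B

set_option autoImplicit false

namespace Pool.Agent.H.MP_83fe1d_co

open Set
open scoped Classical

lemma cyc (g : ℕ → ℝ) (m : ℕ) :
    ∑ k ∈ Finset.range 20, g ((m + k) % 20) = ∑ j ∈ Finset.range 20, g j := by
  induction m with
  | zero =>
    refine Finset.sum_congr rfl fun k hk => ?_
    rw [zero_add, Nat.mod_eq_of_lt (Finset.mem_range.1 hk)]
  | succ m ih =>
    have h1 := Finset.sum_range_succ (fun k => g ((m + k) % 20)) 20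
    have h2 := Finset.sum_range_succ' (fun k => g ((m + k) % 20)) 20
    have h3 : ∑ k ∈ Finset.range 20, g ((m + 1 + k) % 20) =
        ∑ k ∈ Finset.range 20, g ((m + (k + 1)) % 20) :=
      Finset.sum_congr rfl fun k _ => by congr 2; omega
    have h4 : (m + 20) % 20 = (m + 0) % 20 := by omega
    rw [h4] at h1
    linarith

noncomputable def ff (d : ℝ) : ℝ := d - psi d

lemma avg {τ : ℝ} (h0 : 0 ≤ τ) (h1 : τ ≤ 1) :
    ∑ j ∈ Finset.range 20, ff |((j : ℝ) + τ) / 5 - 2| ≤ 20 * 0.9895 := by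
  have lo : ∀ j : ℝ, j ≤ 9 → |(j + τ) / 5 - 2| = 2 - (j + τ) / 5 := fun j hj => by
    rw [abs_of_nonpos (by linarith)]; ring
  have hi : ∀ j : ℝ, 10 ≤ j → |(j + τ) / 5 - 2| = (j + τ) / 5 - 2 := fun j hj => by
    rw [abs_of_nonneg (by linarith)]
  simp only [Finset.sum_range_succ, Finset.sum_range_zero]
  push_cast
  rw [lo 0 (by norm_num), lo 1 (by norm_num), lo 2 (by norm_num), lo 3 (by norm_num),
    lo 4 (by norm_num), lo 5 (by norm_num), lo 6 (by norm_num), lo 7 (by norm_num),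
    lo 8 (by norm_num), lo 9 (by norm_num), hi 10 (by norm_num), hi 11 (by norm_num),
    hi 12 (by norm_num), hi 13 (by norm_num), hi 14 (by norm_num), hi 15 (by norm_num),
    hi 16 (by norm_num), hi 17 (by norm_num), hi 18 (by norm_num), hi 19 (by norm_num)]
  unfold ff
  have a0 := psi_ge3 (d := 2 - (0 + τ) / 5) (by linarith)
  have a1 := psi_ge3 (d := 2 - (1 + τ) / 5) (by linarith)
  have a2 := psi_ge3 (d := 2 - (2 + τ) / 5) (by linarith)
  have a3 := psi_ge3 (d := 2 - (3 + τ) / 5) (by linarith)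
  have a4 := psi_ge3 (d := 2 - (4 + τ) / 5) (by linarith)
  have a5 := psi_ge3 (d := 2 - (5 + τ) / 5) (by linarith)
  have a6 := psi_ge3 (d := 2 - (6 + τ) / 5) (by linarith)
  have a7 := psi_ge2 (d := 2 - (7 + τ) / 5) (by linarith)
  have a8 := psi_ge1 (d := 2 - (8 + τ) / 5) (by linarith)
  have a9 := psi_ge0 (2 - (9 + τ) / 5)
  have a10 := psi_ge0 ((10 + τ) / 5 - 2)
  have a11 := psi_ge1 (d := (11 + τ) / 5 - 2) (by linarith)
  have a12 := psi_ge2 (d := (12 + τ) / 5 - 2) (by linarith)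
  have a13 := psi_ge3 (d := (13 + τ) / 5 - 2) (by linarith)
  have a14 := psi_ge3 (d := (14 + τ) / 5 - 2) (by linarith)
  have a15 := psi_ge3 (d := (15 + τ) / 5 - 2) (by linarith)
  have a16 := psi_ge3 (d := (16 + τ) / 5 - 2) (by linarith)
  have a17 := psi_ge3 (d := (17 + τ) / 5 - 2) (by linarith)
  have a18 := psi_ge3 (d := (18 + τ) / 5 - 2) (by linarith)
  have a19 := psi_ge3 (d := (19 + τ) / 5 - 2) (by linarith)
  linarith

noncomputable def row (k : ℕ) (p : P) : ℕ := (⌊5 * p 1⌋₊ + k) / 20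
noncomputable def yy (k j : ℕ) : ℝ := 4 * j + 2 - k / 5

lemma avg2 {p : P} (hp : 0 ≤ p 1) :
    ∑ k ∈ Finset.range 20, ff |p 1 - yy k (row k p)| ≤ 20 * 0.9895 := by
  have h1 := Nat.floor_le (show 0 ≤ 5 * p 1 by linarith)
  have h2 := Nat.lt_floor_add_one (5 * p 1)
  refine le_trans (le_of_eq ?_) (avg (τ := 5 * p 1 - ⌊5 * p 1⌋₊) (by linarith) (by linarith))
  rw [← cyc (fun j => ff |((j : ℝ) + (5 * p 1 - ⌊5 * p 1⌋₊)) / 5 - 2|) ⌊5 * p 1⌋₊]
  refine Finset.sum_congr rfl fun k _ => ?_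
  congr 2
  have h3 := Nat.div_add_mod (⌊5 * p 1⌋₊ + k) 20
  have h4 : (20 : ℝ) * (((⌊5 * p 1⌋₊ + k) / 20 : ℕ) : ℝ) + (((⌊5 * p 1⌋₊ + k) % 20 : ℕ) : ℝ) =
      ⌊5 * p 1⌋₊ + k := by exact_mod_cast h3
  unfold yy row
  linarith

lemma rowNet (W : ℝ) (hW : 0 ≤ W) (y0 : ℝ) (X : Finset P) (hX : ∀ p ∈ X, 0 ≤ p 0 ∧ p 0 ≤ W)
    (hs : Sep X) : Net ({pt 0 y0, pt 0 (y0 + 4)} ∪ ↑X)
      ((W + 9 / 2) + ∑ p ∈ X, ff |p 1 - y0|) := by
  have h := chain X (fun p => ⌊2 * p 0⌋₊) (fun p => ff |p 1 - y0|) (fun i => pt (i / 2) y0) (1 / 2)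
    (by
      intro i
      have := cell (i / 2) y0 (X.filter (fun p => ⌊2 * p 0⌋₊ = i)) (by
        intro p hp
        rw [Finset.mem_filter] at hp
        have h1 := Nat.floor_le (show 0 ≤ 2 * p 0 by linarith [(hX p hp.1).1])
        have h2 := Nat.lt_floor_add_one (2 * p 0)
        rw [hp.2] at h1 h2
        constructor <;> linarith)
        (fun p hp q hq => hs p (Finset.mem_filter.1 hp).1 q (Finset.mem_filter.1 hq).1)
      have e : (((i + 1 : ℕ) : ℝ) / 2) = i / 2 + 1 / 2 := by push_cast; ring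
      simp only [e]
      exact this) (⌊2 * W⌋₊ + 1)
  rw [Finset.filter_true_of_mem (fun p hp => Nat.lt_succ_of_le
    (Nat.floor_le_floor (by linarith [(hX p hp).2])))] at h
  have e0 : pt (((0 : ℕ) : ℝ) / 2) y0 = pt 0 y0 := by simp
  simp only [e0] at h
  refine (h.attach (q := pt 0 y0) (by simp) (pt 0 (y0 + 4))).mono ?_ ?_
  · rintro z ((rfl | rfl) | hz)
    · simp
    · simp
    · exact Or.inr (Or.inr hz)
  · have d1 : dist (pt 0 y0) (pt 0 (y0 + 4)) ≤ 4 := dist_le (by norm_num) (by simp)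
    have h1 := Nat.floor_le (show 0 ≤ 2 * W by linarith)
    push_cast
    linarith

lemma sepNet (W : ℝ) (hW : 0 ≤ W) (X : Finset P)
    (hX : ∀ p ∈ X, ∀ i, 0 ≤ p i ∧ p i ≤ W) (hs : Sep X) :
    Net ↑X ((W / 4 + 2) * (W + 9 / 2) + 0.9895 * X.card) := by
  obtain ⟨k, hk, hk2⟩ := Finset.exists_le_of_sum_le (s := Finset.range 20) (by simp)
    (f := fun k => ∑ p ∈ X, ff |p 1 - yy k (row k p)|) (g := fun _ => 0.9895 * (X.card : ℝ)) (by
      rw [Finset.sum_comm]
      refine (Finset.sum_le_sum fun p hp => avg2 (hX p hp 1).1).trans (le_of_eq ?_)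
      simp only [Finset.sum_const, Finset.card_range, nsmul_eq_mul]
      push_cast; ring)
  have hk3 := Finset.mem_range.1 hk
  have h := chain X (row k) (fun p => ff |p 1 - yy k (row k p)|) (fun j => pt 0 (yy k j))
    (W + 9 / 2) (by
      intro j
      have := rowNet W hW (yy k j) (X.filter (fun p => row k p = j))
        (fun p hp => hX p (Finset.mem_filter.1 hp).1 0)
        (fun p hp q hq => hs p (Finset.mem_filter.1 hp).1 q (Finset.mem_filter.1 hq).1)
      have e : yy k (j + 1) = yy k j + 4 := by unfold yy; push_cast; ring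
      simp only [e]
      refine this.mono subset_rfl (le_of_eq ?_)
      congr 1
      refine Finset.sum_congr rfl fun p hp => ?_
      rw [(Finset.mem_filter.1 hp).2]) ((⌊5 * W⌋₊ + 19) / 20 + 1)
  rw [Finset.filter_true_of_mem (fun p hp => by
    have : ⌊5 * p 1⌋₊ ≤ ⌊5 * W⌋₊ := Nat.floor_le_floor (by linarith [(hX p hp 1).2])
    unfold row
    omega)] at h
  refine h.mono subset_union_right ?_
  have h1 := Nat.floor_le (show 0 ≤ 5 * W by linarith)
  have h2 : (20 : ℝ) * (((⌊5 * W⌋₊ + 19) / 20 : ℕ) : ℝ) ≤ ⌊5 * W⌋₊ + 19 := by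
    exact_mod_cast Nat.mul_div_le (⌊5 * W⌋₊ + 19) 20
  have h3 : ((((⌊5 * W⌋₊ + 19) / 20 + 1 : ℕ)) : ℝ) ≤ W / 4 + 2 := by
    rw [Nat.cast_add, Nat.cast_one]; linarith
  have h4 := mul_le_mul_of_nonneg_right h3 (show 0 ≤ W + 9 / 2 by linarith)
  linarith

theorem allNet (W : ℝ) (hW : 0 ≤ W) (n : ℕ) : ∀ X : Finset P, X.card = n →
    (∀ p ∈ X, ∀ i, 0 ≤ p i ∧ p i ≤ W) →
    Net ↑X ((W / 4 + 2) * (W + 9 / 2) + 0.9895 * X.card) := by
  induction n with
  | zero =>
    intro X hc hX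
    refine sepNet W hW X hX ?_
    rw [Finset.card_eq_zero.1 hc]
    intro p hp; simp at hp
  | succ n ih =>
    intro X hc hX
    by_cases hs : Sep X
    · exact sepNet W hW X hX hs
    · unfold Sep at hs
      push Not at hs
      obtain ⟨p, hp, q, hq, hne, hd⟩ := hs
      have h1 : (X.erase p).card = n := by rw [Finset.card_erase_of_mem hp]; omega
      have h2 := ih (X.erase p) h1 (fun z hz => hX z (Finset.mem_of_mem_erase hz))
      refine (h2.attach (q := q) (Finset.mem_coe.2 (Finset.mem_erase.2 ⟨hne.symm, hq⟩)) p).mono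
        ?_ ?_
      · intro z hz
        by_cases g : z = p
        · exact Or.inl g
        · exact Or.inr (Finset.mem_coe.2 (Finset.mem_erase.2 ⟨g, hz⟩))
      · rw [h1, hc, dist_comm]; push_cast; linarith

theorem unitNet (X : Finset P) (hX : ∀ p ∈ X, ∀ i, 0 ≤ p i ∧ p i ≤ 1) :
    Net ↑X (0.99475 * √(X.card : ℝ) + 8) := by
  rcases X.eq_empty_or_nonempty with rfl | hne
  · exact (Net.single 0).mono (by simp) (by positivity)
  have hn : (1 : ℝ) ≤ X.card := by exact_mod_cast hne.card_pos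
  set s := √(X.card : ℝ) with hs
  have s1 : 1 ≤ s := Real.one_le_sqrt.2 hn
  have s2 : s ^ 2 = X.card := Real.sq_sqrt (by linarith)
  have hW : (0 : ℝ) < 2 * s := by linarith
  have h1 := allNet (2 * s) hW.le _ (X.image (fun p => (2 * s) • p)) rfl (by
    intro p hp i
    obtain ⟨q, hq, rfl⟩ := Finset.mem_image.1 hp
    have := hX q hq i
    simp only [PiLp.smul_apply, smul_eq_mul]
    constructor <;> nlinarith [this.1, this.2])
  have h2 : ((X.image (fun p => (2 * s) • p)).card : ℝ) ≤ X.card := by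
    exact_mod_cast Finset.card_image_le
  refine (h1.smul (t := (2 * s)⁻¹) (by positivity)).mono ?_ ?_
  · intro p hp
    exact ⟨(2 * s) • p, Finset.mem_coe.2 (Finset.mem_image_of_mem _ hp), by
      simp only; rw [smul_smul, inv_mul_cancel₀ hW.ne', one_smul]⟩
  · rw [inv_mul_le_iff₀ hW]
    nlinarith

end Pool.Agent.H.MP_83fe1d_co
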